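import Mathlib

set_option autoImplicit false
open scoped Nat

/-!
Project ST, part NUM: rational arithmetic.
-/

namespace Pool.Agent.W959.ST

/-- `EIq k a = (EI k a, EI (k + 1) a)` -/
def EIq : ℕ → ℚ → ℚ × ℚ
  | 0, _ => (1, 1 / 2)
  | (q + 1), l =>
    let p := EIq q l
    (p.2, ((2 * (q : ℚ) + 3) * p.2 - (2 * (q : ℚ) + 2) * (l * (1 - l)) * p.1) / (2 * (q : ℚ) + 4))

def Knq (n : ℕ) : ℚ :=
  (((2 * n + 1)‼ : ℕ) : ℚ) ^ 4 * (2 * (n : ℚ) + 3) * 4 ^ ((n + 1) / 2) * (((((n - 1) / 2)! : ℕ)) : ℚ) ^ 2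
    / (4 ^ (2 * n + 2) * ((n ! : ℕ) : ℚ) ^ 2 * ((n‼ : ℕ) : ℚ) ^ 2 * (((n + 1)! : ℕ) : ℚ) ^ 2)

def ghq (n : ℕ) (l : ℚ) : ℚ :=
  2 * ((n : ℚ) + 1) * n + 5 * n / ((n : ℚ) - 2) * l
    - l * (n / ((n : ℚ) - 1)) * (2 * ((n : ℚ) + 1) ^ 2 - 5 * ((n : ℚ) + 1) + (4 * (n : ℚ) + 3) * l
      + (((n : ℚ) + 1) ^ 2 - 4) / ((n : ℚ) - 2))

def gxq (n : ℕ) (l : ℚ) : ℚ :=
  2 * n * (2 * (n : ℚ) + 3) + 3 * ((n : ℚ) + 2) - 6 * ((n : ℚ) + 1) + ((n : ℚ) + 3) * n / ((n : ℚ) - 2)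
    - n / (((n : ℚ) - 1) - 2 * ((n : ℚ) - 2) * (l * (1 - l)))
      * (n * (2 * (n : ℚ) + 3) + (((n : ℚ) + 1) ^ 2 - 4) / ((n : ℚ) - 2))

/-- bound of `E^2` for `l ≥ a` -/
def Pq (m : ℕ) (a : ℚ) : ℚ :=
  if a = 0 then 4053 / 10000 * ((((2 * m - 2)‼ : ℕ) : ℚ) / (((2 * m - 1)‼ : ℕ) : ℚ)) ^ 2
  else (EIq (m - 1) a).1 * (EIq (m - 1) a).2

def tq (n : ℕ) (b : ℚ) : ℚ := if 3 / 20 - (n : ℚ) * b ≤ 0 then 0 else 3 / 20 - (n : ℚ) * b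

def Bq (n : ℕ) (a b : ℚ) : ℚ := ghq n a / (1 - 2 * b) - tq n b * gxq n b

def rhs (n : ℕ) : ℚ := 99 / 100 * ((n : ℚ) * Knq n)

def ok (m : ℕ) (a b : ℚ) : Bool :=
  decide (0 ≤ a) && decide (b ≤ 3 / 10) && decide (0 ≤ ghq (2 * m - 1) a) &&
  (decide (tq (2 * m - 1) b = 0) || decide (0 ≤ gxq (2 * m - 1) b)) &&
  decide (0 ≤ Bq (2 * m - 1) a b) &&
  decide (Pq m a * Bq (2 * m - 1) a b ≤ rhs (2 * m - 1))

def walk (m : ℕ) : ℚ → List ℚ → Bool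
  | _, [] => true
  | a, (b :: bs) => ok m a b && walk m b bs

def cells : ℕ → List ℚ
  | 3 => [7/500,97/4000,81/2000,149/2000,277/2000,939/4000,3/10]
  | 4 => [13/1000,131/4000,37/400,233/1000,3/10]
  | 5 => [9/800,159/4000,577/4000,3/10]
  | 6 => [1/100,9/200,24/125,3/10]
  | 7 => [7/800,19/400,183/800,3/10]
  | 8 => [31/4000,49/1000,13/50,3/10]
  | 9 => [7/1000,101/2000,231/800,3/10]
  | 10 => [1/160,203/4000,3/10]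
  | 11 => [23/4000,207/4000,3/10]
  | 12 => [21/4000,207/4000,3/10]
  | 13 => [1/200,43/800,3/10]
  | 14 => [19/4000,221/4000,3/10]
  | 15 => [17/4000,53/1000,3/10]
  | 16 => [1/250,107/2000,3/10]
  | 17 => [3/800,107/2000,3/10]
  | 18 => [7/2000,53/1000,3/10]
  | 19 => [7/2000,7/125,3/10]
  | 20 => [13/4000,219/4000,3/10]
  | 21 => [3/1000,213/4000,3/10]
  | 22 => [3/1000,223/4000,3/10]
  | 23 => [11/4000,107/2000,3/10]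
  | _ => []

def full (m : ℕ) : Bool :=
  walk m 0 (cells m) && decide ((cells m).getLast? = some (3 / 10)) &&
  decide (0 ≤ gxq (2 * m - 1) (3 / (20 * ((2 * m - 1 : ℕ) : ℚ)))) &&
  decide (Pq m (3 / 10) * (4 * (((2 * m - 1 : ℕ) : ℚ) + 1) ^ 2 + (((2 * m - 1 : ℕ) : ℚ) + 1) + 1)
    ≤ rhs (2 * m - 1))

end Pool.Agent.W959.ST
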