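import Pool.Agent.W546.ST.Defs
import Pool.Agent.W959.ST.NumC

set_option autoImplicit false
open scoped Nat

/-!
Project ST, part NUM: the final numerical inequality.
-/

namespace Pool.Agent.W959.ST

open Pool.Agent.W546.ST

theorem all_full : ∀ m ∈ Finset.Icc 3 23, full m = true := by decide +kernel

theorem EIq_cast (a : ℚ) (k : ℕ) :
    (((EIq k a).1 : ℚ) : ℝ) = EI k a ∧ (((EIq k a).2 : ℚ) : ℝ) = EI (k + 1) a := by
  induction k with
  | zero => constructor <;> simp [EIq, EI]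
  | succ k ih =>
    obtain ⟨h1, h2⟩ := ih
    refine ⟨h2, ?_⟩
    rw [EIq, EI]
    push_cast
    rw [h1, h2]

theorem Kn_cast (n : ℕ) : ((Knq n : ℚ) : ℝ) = Kn n := by
  unfold Knq Kn
  push_cast
  rfl

theorem gh_cast (n : ℕ) (a : ℚ) : ((ghq n a : ℚ) : ℝ) = gh n a := by
  unfold ghq gh
  push_cast
  rfl

theorem gx_cast (n : ℕ) (a : ℚ) : ((gxq n a : ℚ) : ℝ) = gx n a := by
  unfold gxq gx
  push_cast
  rfl

theorem tq_cast (n : ℕ) (b : ℚ) : ((tq n b : ℚ) : ℝ) = max 0 (3 / 20 - (n : ℝ) * b) := by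
  unfold tq
  split_ifs with h
  · have : (3 / 20 - (n : ℝ) * b) ≤ 0 := by
      have h' : ((3 / 20 - (n : ℚ) * b : ℚ) : ℝ) ≤ ((0 : ℚ) : ℝ) := Rat.cast_le.2 h
      push_cast at h'
      exact h'
    rw [max_eq_left this]
    simp
  · have : 0 ≤ (3 / 20 - (n : ℝ) * b) := by
      push Not at h
      have h' : ((0 : ℚ) : ℝ) ≤ ((3 / 20 - (n : ℚ) * b : ℚ) : ℝ) := Rat.cast_le.2 h.le
      push_cast at h'
      exact h'
    rw [max_eq_right this]
    push_cast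
    rfl

theorem gh_anti (n : ℕ) (hn : 5 ≤ n) (a l : ℝ) (ha : 0 ≤ a) (hal : a ≤ l) : gh n l ≤ gh n a := by
  have hn' : (5 : ℝ) ≤ n := by exact_mod_cast hn
  unfold gh
  generalize (n : ℝ) = x at *
  have h2 : 0 < x - 2 := by linarith
  have h1 : 0 < x - 1 := by linarith
  have hd : 1 ≤ x / (x - 1) := by rw [le_div_iff₀ h1]; linarith
  have hc : 5 * x / (x - 2) ≤ 25 / 3 := by rw [div_le_iff₀ h2]; linarith
  have hk : 0 ≤ ((x + 1) ^ 2 - 4) / (x - 2) := by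
    apply div_nonneg _ h2.le
    nlinarith
  have hk0 : 25 / 3 ≤ 2 * (x + 1) ^ 2 - 5 * (x + 1) + ((x + 1) ^ 2 - 4) / (x - 2) := by nlinarith
  set d := x / (x - 1)
  set c := 5 * x / (x - 2)
  set k := ((x + 1) ^ 2 - 4) / (x - 2)
  have hk1 : 0 ≤ (4 * x + 3) * (l + a) := by
    apply mul_nonneg <;> linarith
  have key : 0 ≤ (l - a) * (-c + d * (2 * (x + 1) ^ 2 - 5 * (x + 1) + k + (4 * x + 3) * (l + a))) := by
    apply mul_nonneg (by linarith)
    have : 25 / 3 ≤ d * (2 * (x + 1) ^ 2 - 5 * (x + 1) + k + (4 * x + 3) * (l + a)) := by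
      have h3 : 25 / 3 ≤ 2 * (x + 1) ^ 2 - 5 * (x + 1) + k + (4 * x + 3) * (l + a) := by linarith
      nlinarith
    linarith
  nlinarith

theorem gx_anti (n : ℕ) (hn : 5 ≤ n) (l b : ℝ) (_hl : 0 ≤ l) (hlb : l ≤ b) (hb : b ≤ 1 / 2) :
    gx n b ≤ gx n l := by
  have hn' : (5 : ℝ) ≤ n := by exact_mod_cast hn
  unfold gx
  generalize (n : ℝ) = x at *
  have h2 : 0 < x - 2 := by linarith
  have hmu : l * (1 - l) ≤ b * (1 - b) := by nlinarith
  have hmb : b * (1 - b) ≤ 1 / 4 := by nlinarith [sq_nonneg (b - 1 / 2)]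
  have hdb : 0 < (x - 1) - 2 * (x - 2) * (b * (1 - b)) := by nlinarith
  have hdl : (x - 1) - 2 * (x - 2) * (b * (1 - b)) ≤ (x - 1) - 2 * (x - 2) * (l * (1 - l)) := by
    nlinarith
  have hq : x / ((x - 1) - 2 * (x - 2) * (l * (1 - l))) ≤
      x / ((x - 1) - 2 * (x - 2) * (b * (1 - b))) :=
    div_le_div_of_nonneg_left (by linarith) hdb hdl
  have hC : 0 ≤ x * (2 * x + 3) + ((x + 1) ^ 2 - 4) / (x - 2) := by
    have : 0 ≤ ((x + 1) ^ 2 - 4) / (x - 2) := by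
      apply div_nonneg _ h2.le
      nlinarith
    nlinarith
  have := mul_le_mul_of_nonneg_right hq hC
  linarith

theorem E_sq (h1 : St_EM) (m : ℕ) (hm : 3 ≤ m) (a : ℚ) (l : ℝ) (ha0 : 0 ≤ a) (ha : (a : ℝ) ≤ l)
    (hl0 : 0 < l) (hl : l ≤ 1 / 2) : Eq (2 * m - 1) 0 l ^ 2 ≤ (Pq m a : ℝ) := by
  obtain ⟨hE, hE1, hE2⟩ := h1 m (by omega) l hl0 hl
  unfold Pq
  split_ifs with h
  · push_cast
    set D : ℝ := (((2 * m - 2)‼ : ℕ) : ℝ) / (((2 * m - 1)‼ : ℕ) : ℝ)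
    have hpi := Real.pi_gt_d6
    have h3 : (2 / Real.pi) ^ 2 ≤ 4053 / 10000 := by
      rw [div_pow, div_le_iff₀ (by positivity)]
      nlinarith
    calc Eq (2 * m - 1) 0 l ^ 2 ≤ (2 / Real.pi * D) ^ 2 := pow_le_pow_left₀ hE hE2 2
      _ = (2 / Real.pi) ^ 2 * D ^ 2 := by ring
      _ ≤ 4053 / 10000 * D ^ 2 := mul_le_mul_of_nonneg_right h3 (by positivity)
  · have h4 := hE1 a (by exact_mod_cast ha0) ha
    push_cast
    rw [(EIq_cast a (m - 1)).1, (EIq_cast a (m - 1)).2, show m - 1 + 1 = m by omega]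
    exact h4

theorem cell (h1 : St_EM) (h2 : St_XB) (m : ℕ) (hm : 3 ≤ m)
    (hgx : 0 ≤ gxq (2 * m - 1) (3 / (20 * ((2 * m - 1 : ℕ) : ℚ)))) (a b : ℚ)
    (hok : ok m a b = true) (l : ℝ) (hl0 : 0 < l) (ha : (a : ℝ) ≤ l) (hb : l ≤ (b : ℝ)) :
    (X0 (2 * m - 1) l + max 0 (3 / 20 - ((2 * m - 1 : ℕ) : ℝ) * l) * X1 (2 * m - 1) l) *
      Eq (2 * m - 1) 0 l ≤ (rhs (2 * m - 1) : ℝ) := by
  simp only [ok, Bool.and_eq_true, Bool.or_eq_true, decide_eq_true_eq] at hok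
  obtain ⟨⟨⟨⟨⟨c1, c2⟩, c3⟩, c4⟩, c5⟩, c6⟩ := hok
  have hb3 : (b : ℝ) ≤ 3 / 10 := by
    have : ((b : ℚ) : ℝ) ≤ ((3 / 10 : ℚ) : ℝ) := by exact_mod_cast c2
    push_cast at this
    exact this
  have hl2 : l ≤ 1 / 2 := by linarith
  have ha0 : (0 : ℝ) ≤ (a : ℝ) := by exact_mod_cast c1
  have hsq := E_sq h1 m hm a l c1 ha hl0 hl2
  obtain ⟨hE, -, -⟩ := h1 m (by omega) l hl0 hl2
  generalize hn : 2 * m - 1 = n at *
  have hn5 : 5 ≤ n := by omega
  have hn0 : (5 : ℝ) ≤ n := by exact_mod_cast hn5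
  obtain ⟨k1, k2, -⟩ := h2 n hn5 l hl0 hl2
  set e := Eq n 0 l with he
  have g3 : 0 ≤ gh n a := by rw [← gh_cast]; exact_mod_cast c3
  have gxc : 0 ≤ gx n (3 / (20 * (n : ℝ))) := by
    have := gx_cast n (3 / (20 * (n : ℚ)))
    push_cast at this
    rw [← this]
    exact_mod_cast hgx
  have htb := tq_cast n b
  have gB : ((Bq n a b : ℚ) : ℝ) = gh n a / (1 - 2 * b) - (tq n b : ℝ) * gx n b := by
    unfold Bq
    push_cast
    rw [gh_cast, gx_cast]
  have g5 : 0 ≤ ((Bq n a b : ℚ) : ℝ) := by exact_mod_cast c5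
  have g6 : (Pq m a : ℝ) * (Bq n a b : ℝ) ≤ (rhs n : ℝ) := by exact_mod_cast c6
  have g4 : (tq n b : ℝ) = 0 ∨ 0 ≤ gx n b := by
    rcases c4 with h | h
    · left; exact_mod_cast h
    · right; rw [← gx_cast]; exact_mod_cast h
  set tb : ℝ := (tq n b : ℝ) with htb'
  have htb0 : 0 ≤ tb := by rw [htb]; exact le_max_left _ _
  set t : ℝ := max 0 (3 / 20 - (n : ℝ) * l) with ht
  have htt : tb ≤ t := by
    rw [htb, ht]
    apply max_le_max le_rfl
    have : (n : ℝ) * l ≤ n * b := mul_le_mul_of_nonneg_left hb (by linarith)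
    linarith
  have hX1 : t = tb ∨ X1 n l ≤ 0 := by
    by_cases hc : 3 / 20 - (n : ℝ) * l ≤ 0
    · left
      have h0 : t = 0 := by rw [ht, max_eq_left hc]
      rw [h0] at htt ⊢
      linarith
    · right
      push Not at hc
      have hl3 : l ≤ 3 / (20 * (n : ℝ)) := by
        rw [le_div_iff₀ (by linarith)]
        linarith
      have h5 : (3 : ℝ) / (20 * (n : ℝ)) ≤ 1 / 2 := by
        rw [div_le_iff₀ (by linarith)]
        linarith
      have h6 := gx_anti n hn5 l _ hl0.le hl3 h5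
      have h7 : 0 ≤ gx n l * e := mul_nonneg (by linarith) hE
      by_contra h8
      push Not at h8
      have : 0 < (1 - 2 * l) * X1 n l := mul_pos (by linarith) h8
      linarith
  have s1 : (X0 n l + t * X1 n l) * e ≤ (X0 n l + tb * X1 n l) * e := by
    apply mul_le_mul_of_nonneg_right _ hE
    rcases hX1 with h | h
    · rw [h]
    · nlinarith
  refine s1.trans ?_
  have hl' : 0 < 1 - 2 * l := by linarith
  have hb' : 0 < 1 - 2 * (b : ℝ) := by linarith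
  have s2 : (1 - 2 * l) * (X0 n l + tb * X1 n l) ≤ (gh n l - tb * gx n l) * e := by
    nlinarith [mul_le_mul_of_nonneg_left k2 htb0]
  have s3 : gh n l - tb * gx n l ≤ (1 - 2 * l) * (Bq n a b : ℝ) := by
    rw [gB]
    have q1 := gh_anti n hn5 a l ha0 ha
    have q2 := gx_anti n hn5 l b hl0.le hb (by linarith)
    have q3 : gh n a ≤ (1 - 2 * l) * (gh n a / (1 - 2 * b)) := by
      rw [← mul_div_assoc, le_div_iff₀ hb', mul_comm]
      exact mul_le_mul_of_nonneg_right (by linarith) g3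
    have q4 : (1 - 2 * l) * (tb * gx n b) ≤ tb * gx n l := by
      rcases g4 with h | h
      · rw [h]; simp
      · have q5 : (1 - 2 * l) * (tb * gx n b) ≤ 1 * (tb * gx n b) :=
          mul_le_mul_of_nonneg_right (by linarith) (mul_nonneg htb0 h)
        have q6 : tb * gx n b ≤ tb * gx n l := mul_le_mul_of_nonneg_left q2 htb0
        linarith
    linarith
  have s4 : (1 - 2 * l) * ((X0 n l + tb * X1 n l) * e) ≤ (1 - 2 * l) * ((Bq n a b : ℝ) * e ^ 2) := by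
    have r1 := mul_le_mul_of_nonneg_right s2 hE
    have r2 := mul_le_mul_of_nonneg_right s3 (sq_nonneg e)
    nlinarith
  have s5 := le_of_mul_le_mul_left s4 hl'
  have s6 : (Bq n a b : ℝ) * e ^ 2 ≤ (Bq n a b : ℝ) * (Pq m a : ℝ) :=
    mul_le_mul_of_nonneg_left hsq g5
  linarith

theorem walk_ok (h1 : St_EM) (h2 : St_XB) (m : ℕ) (hm : 3 ≤ m)
    (hgx : 0 ≤ gxq (2 * m - 1) (3 / (20 * ((2 * m - 1 : ℕ) : ℚ)))) (l : ℝ) (hl0 : 0 < l)
    (c : ℚ) (hc : l ≤ (c : ℝ)) (bs : List ℚ) :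
    ∀ a : ℚ, walk m a bs = true → (a : ℝ) ≤ l → bs.getLast? = some c →
      (X0 (2 * m - 1) l + max 0 (3 / 20 - ((2 * m - 1 : ℕ) : ℝ) * l) * X1 (2 * m - 1) l) *
      Eq (2 * m - 1) 0 l ≤ (rhs (2 * m - 1) : ℝ) := by
  induction bs with
  | nil => intro a _ _ h; simp at h
  | cons b bs ih =>
    intro a hw ha hlast
    simp only [walk, Bool.and_eq_true] at hw
    by_cases hb : l ≤ (b : ℝ)
    · exact cell h1 h2 m hm hgx a b hw.1 l hl0 ha hb
    · push Not at hb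
      cases bs with
      | nil =>
        simp only [List.getLast?_singleton, Option.some.injEq] at hlast
        subst hlast
        exact absurd hc (not_le.2 hb)
      | cons b' bs' =>
        rw [List.getLast?_cons_cons] at hlast
        exact ih b hw.2 hb.le hlast

theorem NUM (h1 : St_EM) (h2 : St_XB) : St_NUM := by
  intro m hm hm' l hl hl2
  have hl0 : 0 < l := by
    refine lt_of_lt_of_le ?_ hl
    have : (0 : ℝ) < m := by exact_mod_cast (by omega : 0 < m)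
    positivity
  have hf := all_full m (Finset.mem_Icc.2 ⟨hm, hm'⟩)
  simp only [full, Bool.and_eq_true, decide_eq_true_eq] at hf
  obtain ⟨⟨⟨f1, f2⟩, f3⟩, f4⟩ := hf
  have hcast : (2 * (m : ℝ) - 1) = ((2 * m - 1 : ℕ) : ℝ) := by
    rw [Nat.cast_sub (by omega)]
    push_cast
    ring
  have hrhs : (rhs (2 * m - 1) : ℝ) = 99 / 100 * ((2 * (m : ℝ) - 1) * Kn (2 * m - 1)) := by
    unfold rhs
    push_cast
    rw [Kn_cast, hcast]
  rw [← hrhs, hcast]
  by_cases hl3 : l ≤ 3 / 10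
  · refine walk_ok h1 h2 m hm f3 l hl0 (3 / 10) (by push_cast; exact hl3) (cells m) 0 f1 ?_ f2
    push_cast
    exact hl0.le
  · push Not at hl3
    have hsq := E_sq h1 m hm (3 / 10) l (by norm_num) (by push_cast; exact hl3.le) hl0 hl2
    obtain ⟨hE, -, -⟩ := h1 m (by omega) l hl0 hl2
    generalize hn : 2 * m - 1 = n at *
    have hn5 : 5 ≤ n := by omega
    have hn0 : (5 : ℝ) ≤ n := by exact_mod_cast hn5
    obtain ⟨-, -, k3⟩ := h2 n hn5 l hl0 hl2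
    have ht : max 0 (3 / 20 - (n : ℝ) * l) = 0 := by
      apply max_eq_left
      nlinarith
    rw [ht, zero_mul, add_zero]
    have g : (Pq m (3 / 10) : ℝ) * (4 * ((n : ℝ) + 1) ^ 2 + ((n : ℝ) + 1) + 1) ≤ (rhs n : ℝ) := by
      have : ((Pq m (3 / 10) * (4 * ((n : ℚ) + 1) ^ 2 + ((n : ℚ) + 1) + 1) : ℚ) : ℝ) ≤ (rhs n : ℝ) := by
        exact_mod_cast f4
      push_cast at this
      exact this
    set e := Eq n 0 l
    have hpos : 0 ≤ 4 * ((n : ℝ) + 1) ^ 2 + ((n : ℝ) + 1) + 1 := by positivity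
    calc X0 n l * e ≤ (4 * ((n : ℝ) + 1) ^ 2 + ((n : ℝ) + 1) + 1) * e * e :=
          mul_le_mul_of_nonneg_right k3 hE
      _ = (4 * ((n : ℝ) + 1) ^ 2 + ((n : ℝ) + 1) + 1) * e ^ 2 := by ring
      _ ≤ (4 * ((n : ℝ) + 1) ^ 2 + ((n : ℝ) + 1) + 1) * (Pq m (3 / 10) : ℝ) :=
          mul_le_mul_of_nonneg_left hsq hpos
      _ ≤ _ := by linarith

end Pool.Agent.W959.ST
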